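import Pool.Agent.R489.HB.Stm

/-!
# Cycles in a contraction bound (piece CONS)

Lift the cycle; the parities at the two edges over an edge at `u` add up, the triangles on the
contracted edge cancel.
-/

set_option autoImplicit false

namespace Pool.Agent.R366.HB

open Finset Pool.Agent.R489.HB

variable {W : Type} [DecidableEq W]

theorem mem_edg' {Φ : Finset (Finset W)} {e : Finset W} :
    e ∈ edg Φ ↔ ∃ f ∈ Φ, e ⊆ f ∧ e.card = 2 := by
  unfold edg
  rw [Finset.mem_biUnion]
  constructor
  · rintro ⟨f, hf, he⟩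
    exact ⟨f, hf, Finset.mem_powersetCard.1 he⟩
  · rintro ⟨f, hf, he⟩
    exact ⟨f, hf, Finset.mem_powersetCard.2 he⟩

theorem mv_notMem {u v : W} {e : Finset W} (h : v ∉ e) : mv u v e = e := by
  unfold mv
  rw [if_neg h]

theorem mv_mem {u v : W} {e : Finset W} (h : v ∈ e) : mv u v e = insert u (e.erase v) := by
  unfold mv
  rw [if_pos h]

theorem mem_mv {u v w : W} {e : Finset W} (hu : w ≠ u) (hv : w ≠ v) : w ∈ mv u v e ↔ w ∈ e := by
  by_cases h : v ∈ e
  · rw [mv_mem h, Finset.mem_insert, Finset.mem_erase]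
    tauto
  · rw [mv_notMem h]

theorem v_notMem_mv {u v : W} {e : Finset W} (huv : u ≠ v) : v ∉ mv u v e := by
  by_cases h : v ∈ e
  · rw [mv_mem h, Finset.mem_insert, Finset.mem_erase]
    rintro (h1 | h1)
    · exact huv h1.symm
    · exact h1.1 rfl
  · rw [mv_notMem h]
    exact h

theorem u_mem_mv {u v : W} {e : Finset W} (huv : u ≠ v) : u ∈ mv u v e ↔ u ∈ e ∨ v ∈ e := by
  by_cases h : v ∈ e
  · rw [mv_mem h, Finset.mem_insert]
    tauto
  · rw [mv_notMem h]
    tauto

theorem eq_pair {u v : W} {e : Finset W} (huv : u ≠ v) (he : e.card = 2) (hu : u ∈ e) (hv : v ∈ e) :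
    e = {u, v} := by
  symm
  apply Finset.eq_of_subset_of_card_le
  · intro x hx
    rw [Finset.mem_insert, Finset.mem_singleton] at hx
    rcases hx with rfl | rfl
    · exact hu
    · exact hv
  · rw [Finset.card_pair huv, he]

theorem CONS (hA : S_APEX) (hC : S_CNT) (hE : S_CONE) : S_CONS := by
  intro W _ Φ u v hΦ huv huvE hgood h5 Z hZ hZev
  obtain ⟨y1, y2, g1, g2, h1, h2, hApx⟩ := hA W Φ u v hΦ huv huvE hgood h5
  obtain ⟨-, hedg⟩ := hE W Φ u v hΦ huv huvE hgood h5
  -- the lift
  let Z0 : Finset (Finset W) := (edg Φ).filter fun e =>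
    e ≠ {u, v} ∧ mv u v e ∈ Z ∧ ¬ (v ∈ e ∧ mv u v e ∈ edg Φ)
  have hZ0 : ∀ e, e ∈ Z0 ↔ e ∈ edg Φ ∧ e ≠ {u, v} ∧ mv u v e ∈ Z ∧
      ¬ (v ∈ e ∧ mv u v e ∈ edg Φ) := fun e => Finset.mem_filter
  have hcard2 : ∀ e ∈ edg Φ, e.card = 2 := fun e he => by
    obtain ⟨f, -, -, h⟩ := mem_edg'.1 he
    exact h
  have hnot : ∀ e ∈ Z0, ¬ (u ∈ e ∧ v ∈ e) := by
    rintro e he ⟨hu, hv⟩
    obtain ⟨h1, h2, -⟩ := (hZ0 e).1 he
    exact h2 (eq_pair huv (hcard2 e h1) hu hv)
  have hpre : ∀ e ∈ edg Φ, e ≠ {u, v} → v ∈ e → e = insert v ((mv u v e).erase u) := by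
    intro e he hne hv
    have hu : u ∉ e := fun hu => hne (eq_pair huv (hcard2 e he) hu hv)
    rw [mv_mem hv, Finset.erase_insert (by rw [Finset.mem_erase]; exact fun h => hu h.2),
      Finset.insert_erase hv]
  have hinj : Set.InjOn (mv u v) (Z0 : Set (Finset W)) := by
    intro e he e' he' heq
    rw [Finset.mem_coe] at he he'
    obtain ⟨a1, a2, a3, a4⟩ := (hZ0 e).1 he
    obtain ⟨b1, b2, b3, b4⟩ := (hZ0 e').1 he'
    by_cases hv : v ∈ e
    · by_cases hv' : v ∈ e'
      · rw [hpre e a1 a2 hv, hpre e' b1 b2 hv', heq]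
      · exfalso
        apply a4
        rw [heq, mv_notMem hv']
        exact ⟨hv, b1⟩
    · by_cases hv' : v ∈ e'
      · exfalso
        apply b4
        rw [← heq, mv_notMem hv]
        exact ⟨hv', a1⟩
      · rwa [mv_notMem hv, mv_notMem hv'] at heq
  have himg : Z0.image (mv u v) = Z := by
    ext e'
    rw [Finset.mem_image]
    constructor
    · rintro ⟨e, he, rfl⟩
      exact ((hZ0 e).1 he).2.2.1
    · intro he'
      have h1 := hZ he'
      rw [hedg, Finset.mem_image] at h1
      obtain ⟨e, he, rfl⟩ := h1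
      rw [Finset.mem_erase] at he
      by_cases hcase : v ∈ e ∧ mv u v e ∈ edg Φ
      · have h2 : mv u v (mv u v e) = mv u v e := mv_notMem (v_notMem_mv huv)
        refine ⟨mv u v e, (hZ0 _).2 ⟨hcase.2, ?_, by rw [h2]; exact he', ?_⟩, h2⟩
        · intro h3
          apply v_notMem_mv (e := e) huv
          rw [h3]
          simp
        · exact fun h3 => v_notMem_mv huv h3.1
      · exact ⟨e, (hZ0 e).2 ⟨he.2, he.1, he', hcase⟩, rfl⟩
  have hcnt : ∀ w : W, (Z0.filter fun e => w ∈ mv u v e).card = (Z.filter fun e => w ∈ e).card := by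
    intro w
    conv_rhs => rw [← himg]
    rw [Finset.filter_image, Finset.card_image_of_injOn]
    exact hinj.mono fun e he => by
      rw [Finset.mem_coe, Finset.mem_filter] at he
      exact he.1
  have hdw : ∀ w, w ≠ u → w ≠ v → Even (Z0.filter fun e => w ∈ e).card := by
    intro w hu hv
    have h1 := hZev w
    rw [← hcnt w] at h1
    rwa [Finset.filter_congr fun e _ => mem_mv hu hv] at h1
  have hduv : Even ((Z0.filter fun e => u ∈ e).card + (Z0.filter fun e => v ∈ e).card) := by
    have h1 := hZev u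
    rw [← hcnt u, Finset.filter_congr fun e _ => u_mem_mv huv, Finset.filter_or,
      Finset.card_union_of_disjoint] at h1
    · exact h1
    · rw [Finset.disjoint_filter]
      exact fun e he hu hv => hnot e he ⟨hu, hv⟩
  have hpZ0 : ({u, v} : Finset W) ∉ Z0 := fun h => ((hZ0 _).1 h).2.1 rfl
  -- the corrected cycle
  obtain ⟨Z1, hZ1sub, hZ1ev, hZ1⟩ : ∃ Z1 ⊆ edg Φ, (∀ w : W, Even (Z1.filter fun e => w ∈ e).card) ∧
      ∀ e, e ≠ {u, v} → (e ∈ Z1 ↔ e ∈ Z0) := by
    by_cases hodd : Odd (Z0.filter fun e => u ∈ e).card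
    · refine ⟨insert {u, v} Z0, ?_, ?_, ?_⟩
      · intro e he
        rw [Finset.mem_insert] at he
        rcases he with rfl | he
        · exact huvE
        · exact ((hZ0 e).1 he).1
      · intro w
        rw [Finset.filter_insert]
        by_cases hw : w ∈ ({u, v} : Finset W)
        · rw [if_pos hw, Finset.card_insert_of_notMem (fun h => hpZ0 (Finset.mem_filter.1 h).1)]
          rw [Finset.mem_insert, Finset.mem_singleton] at hw
          rcases hw with rfl | rfl
          · exact hodd.add_one
          · have h2 : Odd (Z0.filter fun e => w ∈ e).card := by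
              rcases Nat.even_or_odd (Z0.filter fun e => w ∈ e).card with h3 | h3
              · exact absurd (Nat.even_add.1 hduv |>.2 h3) (by rwa [Nat.not_even_iff_odd])
              · exact h3
            exact h2.add_one
        · rw [if_neg hw]
          rw [Finset.mem_insert, Finset.mem_singleton, not_or] at hw
          exact hdw w hw.1 hw.2
      · intro e he
        rw [Finset.mem_insert]
        exact ⟨fun h => h.resolve_left he, Or.inr⟩
    · rw [Nat.not_odd_iff_even] at hodd
      refine ⟨Z0, Finset.filter_subset _ _, ?_, fun e _ => Iff.rfl⟩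
      intro w
      by_cases hu : w = u
      · rw [hu]
        exact hodd
      · by_cases hv : w = v
        · rw [hv]
          exact (Nat.even_add.1 hduv).1 hodd
        · exact hdw w hu hv
  obtain ⟨Q, hQsub, hQ⟩ := hΦ.sph Z1 hZ1sub hZ1ev
  have hQ2 : ∀ e : Finset W, e.card = 2 → (e ∈ Z1 ↔ Odd (fc Q e).card) := by
    intro e he
    by_cases h1 : e ∈ edg Φ
    · exact hQ e h1
    · constructor
      · exact fun h => absurd (hZ1sub h) h1
      · intro h
        exfalso
        have h2 : fc Q e = ∅ := by
          rw [Finset.eq_empty_iff_forall_notMem]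
          intro f hf
          unfold fc at hf
          rw [Finset.mem_filter] at hf
          exact h1 (mem_edg'.2 ⟨f, hQsub hf.1, hf.2, he⟩)
        rw [h2, Finset.card_empty] at h
        exact (Nat.not_odd_iff_even.2 (by decide)) h
  let P : Finset (Finset W) := Q.filter fun f => ¬ ({u, v} ⊆ f)
  have hP : ∀ f ∈ P, ¬ ({u, v} ⊆ f) := fun f hf => (Finset.mem_filter.1 hf).2
  have hPinj : Set.InjOn (mv u v) {f : Finset W | f ∈ P} := hApx.inj.mono fun f hf => by
    have h1 := Finset.mem_filter.1 hf
    exact ⟨hQsub h1.1, h1.2⟩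
  have hsplit : ∀ e : Finset W, (fc Q e).card =
      (fc P e).card + (Q.filter fun f => e ⊆ f ∧ {u, v} ⊆ f).card := by
    intro e
    unfold fc
    rw [← Finset.card_filter_add_card_filter_not (s := Q.filter fun f => e ⊆ f)
      (fun f => {u, v} ⊆ f), add_comm]
    congr 2
    · ext f
      simp only [P, Finset.mem_filter]
      tauto
    · rw [Finset.filter_filter]
  refine ⟨P.image (mv u v), ?_, ?_⟩
  · unfold contr
    apply Finset.image_subset_image
    intro f hf
    have h1 := Finset.mem_filter.1 hf
    exact Finset.mem_filter.2 ⟨hQsub h1.1, h1.2⟩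
  intro e' he'
  have he'2 : e'.card = 2 := by
    obtain ⟨f, -, -, h⟩ := mem_edg'.1 he'
    exact h
  have he'' := he'
  rw [hedg, Finset.mem_image] at he''
  obtain ⟨e, he, hee⟩ := he''
  rw [Finset.mem_erase] at he
  have hv' : v ∉ e' := by
    rw [← hee]
    exact v_notMem_mv huv
  obtain ⟨c1, c2⟩ := hC W P u v e' huv hP hPinj hv' he'2
  by_cases hu' : u ∈ e'
  · rw [c2 hu']
    have hB2 : (insert v (e'.erase u)).card = 2 := by
      rw [Finset.card_insert_of_notMem (fun h => hv' (Finset.mem_of_mem_erase h)),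
        Finset.card_erase_of_mem hu', he'2]
    have hAne : e' ≠ {u, v} := fun h => hv' (by rw [h]; simp)
    have hBne : insert v (e'.erase u) ≠ {u, v} := by
      intro h
      have h1 : u ∈ insert v (e'.erase u) := by rw [h]; simp
      rw [Finset.mem_insert, Finset.mem_erase] at h1
      rcases h1 with h1 | h1
      · exact huv h1
      · exact h1.1 rfl
    have hvB : v ∈ insert v (e'.erase u) := Finset.mem_insert_self _ _
    have hmvB : mv u v (insert v (e'.erase u)) = e' := by
      rw [mv_mem hvB, Finset.erase_insert (fun h => hv' (Finset.mem_of_mem_erase h)),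
        Finset.insert_erase hu']
    have hmvA : mv u v e' = e' := mv_notMem hv'
    have s1 := hsplit e'
    have s2 := hsplit (insert v (e'.erase u))
    have s3 : (Q.filter fun f => e' ⊆ f ∧ {u, v} ⊆ f) =
        Q.filter fun f => insert v (e'.erase u) ⊆ f ∧ {u, v} ⊆ f := by
      apply Finset.filter_congr
      intro f _
      constructor
      · rintro ⟨h1, h2⟩
        refine ⟨?_, h2⟩
        intro x hx
        rw [Finset.mem_insert] at hx
        rcases hx with rfl | hx
        · exact h2 (by simp)
        · exact h1 (Finset.mem_of_mem_erase hx)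
      · rintro ⟨h1, h2⟩
        refine ⟨?_, h2⟩
        intro x hx
        by_cases hxu : x = u
        · subst hxu
          exact h2 (by simp)
        · exact h1 (Finset.mem_insert_of_mem (Finset.mem_erase.2 ⟨hxu, hx⟩))
    rw [s3] at s1
    have qA := hQ2 e' he'2
    have qB := hQ2 _ hB2
    rw [hZ1 _ hAne, hZ0, hmvA] at qA
    rw [hZ1 _ hBne, hZ0, hmvB] at qB
    have hor : e' ∉ edg Φ → insert v (e'.erase u) ∈ edg Φ := by
      intro h1
      by_cases hve : v ∈ e
      · have h2 := hpre e he.2 he.1 hve
        rw [hee] at h2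
        rw [← h2]
        exact he.2
      · rw [mv_notMem hve] at hee
        rw [← hee] at h1
        exact absurd he.2 h1
    have key : e' ∈ Z ↔ Odd ((fc Q e').card + (fc Q (insert v (e'.erase u))).card) := by
      rw [Nat.odd_add, ← Nat.not_odd_iff_even, ← qA, ← qB]
      by_cases hz : e' ∈ Z
      · by_cases hedge : e' ∈ edg Φ
        · simp only [hz, hedge, hAne, hBne, hvB, hv', true_and, and_true, false_and, not_false_eq_true,
            not_true_eq_false, ne_eq, and_false, and_self]
        · have := hor hedge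
          simp only [hz, hedge, this, hAne, hBne, hvB, hv', true_and, and_true, false_and,
            not_false_eq_true, not_true_eq_false, ne_eq, and_false, and_self]
      · simp only [hz, false_and, not_false_eq_true, ne_eq, and_false, false_iff, iff_true,
          not_true_eq_false]
    rw [key, s1, s2]
    have e1 : (fc P e').card + (Q.filter fun f => insert v (e'.erase u) ⊆ f ∧ {u, v} ⊆ f).card +
        ((fc P (insert v (e'.erase u))).card +
          (Q.filter fun f => insert v (e'.erase u) ⊆ f ∧ {u, v} ⊆ f).card) =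
        (fc P e').card + (fc P (insert v (e'.erase u))).card +
          2 * (Q.filter fun f => insert v (e'.erase u) ⊆ f ∧ {u, v} ⊆ f).card := by ring
    rw [e1, Nat.odd_add]
    simp only [even_two, Even.mul_right, iff_true]
  · rw [c1 hu']
    have hve : v ∉ e := fun h => hu' (by rw [← hee, u_mem_mv huv]; exact Or.inr h)
    rw [mv_notMem hve] at hee
    subst hee
    have hmv : mv u v e = e := mv_notMem hve
    have s1 := hsplit e
    have s2 : (Q.filter fun f => e ⊆ f ∧ {u, v} ⊆ f) = ∅ := by
      rw [Finset.eq_empty_iff_forall_notMem]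
      intro f hf
      rw [Finset.mem_filter] at hf
      obtain ⟨hf1, hf2, hf3⟩ := hf
      have h3 := hΦ.three f (hQsub hf1)
      have h4 : (e ∪ {u, v}).card ≤ f.card := Finset.card_le_card (Finset.union_subset hf2 hf3)
      rw [Finset.card_union_of_disjoint, he'2, Finset.card_pair huv, h3] at h4
      · omega
      · rw [Finset.disjoint_right]
        intro x hx
        rw [Finset.mem_insert, Finset.mem_singleton] at hx
        rcases hx with rfl | rfl
        · exact hu'
        · exact hve
    rw [s2, Finset.card_empty, add_zero] at s1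
    rw [← s1, ← hQ2 e he'2, hZ1 e he.1, hZ0, hmv]
    constructor
    · exact fun h => ⟨he.2, he.1, h, fun h' => hve h'.1⟩
    · exact fun h => h.2.2.1

end Pool.Agent.R366.HB
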